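import Mathlib

/-!
# H10G: colourings with bounded monochromatic components

`B x r` are the balls of a (discrete, extended) metric on `V`. If every ball `B y m` is cut off, by
few points, inside `B y R`, then `V` has a 2-colouring such that the monochromatic `r`-chains are
bounded. (The case `k = 1` of Papasoglu's theorem on growth and asymptotic dimension, at one
scale.)
-/

set_option autoImplicit false

namespace Pool.Agent.Lib.H10G

open Set Filter Relation

universe v

variable {V : Type v}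

/-- The balls of a metric. -/
structure IsBalls (B : V → ℕ → Set V) : Prop where
  self : ∀ x r, x ∈ B x r
  mono : ∀ (x : V) (r s : ℕ), r ≤ s → B x r ⊆ B x s
  symm : ∀ (x y : V) (r : ℕ), y ∈ B x r → x ∈ B y r
  trans : ∀ (x y z : V) (r s : ℕ), y ∈ B x r → z ∈ B y s → z ∈ B x (r + s)

/-- The `r`-boundary of `U`, outside of `U`. -/
def outer (B : V → ℕ → Set V) (r : ℕ) (U : Set V) : Set V := {z | z ∉ U ∧ ∃ u ∈ U, z ∈ B u r}

/-- `T` is admissible in `F`: the `r`-components of `F` minus `T` lie in balls of radius `R`. -/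
def Adm (B : V → ℕ → Set V) (r R : ℕ) (F T : Set V) : Prop :=
  T ⊆ F ∧ ∀ x ∈ F \ T, ∃ z, ∀ y, ReflTransGen (fun a b => b ∈ F \ T ∧ b ∈ B a r) x y → y ∈ B z R

theorem adm_self (B : V → ℕ → Set V) (r R : ℕ) (F : Set V) : Adm B r R F F :=
  ⟨subset_rfl, fun _ hx => absurd hx.1 hx.2⟩

/-- Replacement. -/
theorem Adm.replace {B : V → ℕ → Set V} (hB : IsBalls B) {r R : ℕ} {F T U : Set V}
    (hT : Adm B r R F T) {w : V} (hU : U ⊆ B w R) :
    Adm B r R F ((T \ U) ∪ (outer B r U ∩ F)) := by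
  refine ⟨?_, ?_⟩
  · rintro z (hz | hz)
    · exact hT.1 hz.1
    · exact hz.2
  · rintro x ⟨hxF, hxT⟩
    by_cases hx : x ∈ U
    · refine ⟨w, fun y hy => hU ?_⟩
      induction hy with
      | refl => exact hx
      | @tail b c _ hbc ih =>
        by_contra hc
        exact hbc.1.2 (Or.inr ⟨⟨hc, b, ih, hbc.2⟩, hbc.1.1⟩)
    · have hout : ∀ z, z ∈ F → z ∉ (T \ U) ∪ (outer B r U ∩ F) → z ∉ U → z ∈ F \ T := by
        intro z h1 h2 h3
        refine ⟨h1, fun h4 => h2 (Or.inl ⟨h4, h3⟩)⟩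
      obtain ⟨z, hz⟩ := hT.2 x (hout x hxF hxT hx)
      refine ⟨z, fun y hy => hz y ?_⟩
      have key : ReflTransGen (fun a b => b ∈ F \ T ∧ b ∈ B a r) x y ∧ y ∉ U ∧ y ∈ F ∧
          y ∉ (T \ U) ∪ (outer B r U ∩ F) := by
        induction hy with
        | refl => exact ⟨ReflTransGen.refl, hx, hxF, hxT⟩
        | @tail b c _ hbc ih =>
          have hc : c ∉ U := by
            intro hc
            exact ih.2.2.2 (Or.inr ⟨⟨ih.2.1, c, hc, hB.symm _ _ _ hbc.2⟩, ih.2.2.1⟩)
          exact ⟨ih.1.tail ⟨hout c hbc.1.1 hbc.1.2 hc, hbc.2⟩, hc, hbc.1.1, hbc.1.2⟩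
      exact key.1

/-- The points of `T` which are reached from `y` by at most `j` steps. -/
def reach (B : V → ℕ → Set V) (r : ℕ) (T : Set V) (y : V) : ℕ → Set V
  | 0 => {y}
  | j + 1 => reach B r T y j ∪ {b | b ∈ T ∧ ∃ a ∈ reach B r T y j, b ∈ B a r}

theorem reach_sub_ball {B : V → ℕ → Set V} (hB : IsBalls B) (r : ℕ) (T : Set V) (y : V) (j : ℕ) :
    reach B r T y j ⊆ B y (j * r) := by
  induction j with
  | zero =>
    rintro z hz
    obtain rfl : z = y := hz
    exact hB.self _ _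
  | succ j ih =>
    rintro z (hz | ⟨_, a, ha, hz⟩)
    · exact hB.mono y _ _ (Nat.mul_le_mul_right r (Nat.le_succ j)) (ih hz)
    · have h := hB.trans y a z _ _ (ih ha) hz
      rwa [Nat.succ_mul]

theorem reach_sub {B : V → ℕ → Set V} {r : ℕ} {T : Set V} {y : V} (hy : y ∈ T) (j : ℕ) :
    reach B r T y j ⊆ T := by
  induction j with
  | zero =>
    rintro z hz
    obtain rfl : z = y := hz
    exact hy
  | succ j ih =>
    rintro z (hz | hz)
    · exact ih hz
    · exact hz.1

theorem reach_closed {B : V → ℕ → Set V} {r : ℕ} {T : Set V} {y : V} {j : ℕ}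
    (h : reach B r T y (j + 1) = reach B r T y j) (hy : y ∈ reach B r T y j) {z : V}
    (hz : ReflTransGen (fun a b => b ∈ T ∧ b ∈ B a r) y z) : z ∈ reach B r T y j := by
  induction hz with
  | refl => exact hy
  | @tail b c _ hbc ih =>
    rw [← h]
    exact Or.inr ⟨hbc.1, b, ih, hbc.2⟩

theorem self_mem_reach (B : V → ℕ → Set V) (r : ℕ) (T : Set V) (y : V) (j : ℕ) :
    y ∈ reach B r T y j := by
  induction j with
  | zero => rfl
  | succ j ih => exact Or.inl ih

/-- If the balls contain few points of `T`, the `r`-components of `T` are bounded. -/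
theorem reach_bounded {B : V → ℕ → Set V} (hB : IsBalls B) {r m κ : ℕ} (hκ : κ * r ≤ m)
    {T : Set V} (hT : T.Finite) {y : V} (hy : y ∈ T) (hfew : (T ∩ B y m).ncard ≤ κ) {z : V}
    (hz : ReflTransGen (fun a b => b ∈ T ∧ b ∈ B a r) y z) : z ∈ B y m := by
  by_cases h : ∃ j, j < κ ∧ reach B r T y (j + 1) = reach B r T y j
  · obtain ⟨j, hj, h1⟩ := h
    have h2 := reach_sub_ball hB r T y j (reach_closed h1 (self_mem_reach B r T y j) hz)
    exact hB.mono y _ _ ((Nat.mul_le_mul_right r hj.le).trans hκ) h2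
  · push Not at h
    exfalso
    have hcard : ∀ j, j ≤ κ → j + 1 ≤ (reach B r T y j).ncard := by
      intro j
      induction j with
      | zero =>
        intro _
        show 0 + 1 ≤ ({y} : Set V).ncard
        rw [Set.ncard_singleton]
      | succ j ih =>
        intro hj
        have h1 := ih (by omega)
        have h2 : reach B r T y j ⊂ reach B r T y (j + 1) := by
          refine Set.ssubset_iff_subset_ne.2 ⟨fun z hz => Or.inl hz, fun h3 => ?_⟩
          exact h j (by omega) h3.symm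
        have h3 := Set.ncard_lt_ncard h2 (hT.subset (reach_sub hy _))
        omega
    have h1 := hcard κ le_rfl
    have h2 : reach B r T y κ ⊆ T ∩ B y m := fun z hz =>
      ⟨reach_sub hy _ hz, hB.mono y _ _ hκ (reach_sub_ball hB r T y κ hz)⟩
    have h3 := Set.ncard_le_ncard h2 (hT.subset inter_subset_left)
    omega

/-- The colouring of a finite set. -/
theorem exists_color_finset {B : V → ℕ → Set V} (hB : IsBalls B) (hBf : ∀ x r, (B x r).Finite)
    {r R m κ : ℕ} (hκ : κ * r ≤ m) (hmR : m ≤ 2 * R)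
    (H : ∀ y, ∃ U : Set V, U ⊆ B y R ∧ (B y m \ U).ncard + (outer B r U).ncard ≤ κ)
    (F : Finset V) : ∃ c : V → Bool, ∀ x y,
      ReflTransGen (fun a b => a ∈ F ∧ b ∈ F ∧ c a = c b ∧ b ∈ B a r) x y → y ∈ B x (2 * R) := by
  classical
  -- a set of least cardinality
  obtain ⟨T, hT, hmin⟩ : ∃ T : Set V, Adm B r R (F : Set V) T ∧
      ∀ T', Adm B r R (F : Set V) T' → T.ncard ≤ T'.ncard := by
    obtain ⟨n, hn, hn2⟩ := WellFounded.has_min (wellFounded_lt (α := ℕ))
      {n | ∃ T : Set V, Adm B r R (F : Set V) T ∧ T.ncard = n} ⟨_, _, adm_self B r R F, rfl⟩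
    obtain ⟨T, hT, rfl⟩ := hn
    exact ⟨T, hT, fun T' hT' => not_lt.1 (hn2 _ ⟨T', hT', rfl⟩)⟩
  have hTf : T.Finite := F.finite_toSet.subset hT.1
  have hfew : ∀ y ∈ T, (T ∩ B y m).ncard ≤ κ := by
    intro y _
    obtain ⟨U, hU, h1⟩ := H y
    have hUf : U.Finite := (hBf y R).subset hU
    have hof : (outer B r U).Finite := by
      refine (hUf.biUnion fun u _ => hBf u r).subset ?_
      rintro z ⟨_, u, hu, hz⟩
      exact Set.mem_biUnion hu hz
    have h2 := hmin _ (hT.replace hB hU)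
    have h3 : ((T \ U) ∪ (outer B r U ∩ F)).ncard ≤ (T \ U).ncard + (outer B r U).ncard :=
      (Set.ncard_union_le _ _).trans (Nat.add_le_add_left
        (Set.ncard_le_ncard inter_subset_left hof) _)
    have h4 : (T ∩ U).ncard + (T \ U).ncard = T.ncard := Set.ncard_inter_add_ncard_sdiff_eq_ncard T U hTf
    have h5 : T ∩ B y m ⊆ (T ∩ U) ∪ (B y m \ U) := by
      rintro z ⟨hz1, hz2⟩
      by_cases hz : z ∈ U
      · exact Or.inl ⟨hz1, hz⟩
      · exact Or.inr ⟨hz2, hz⟩
    have h6 := (Set.ncard_le_ncard h5 ((hTf.inter_of_left _).union ((hBf y m).sdiff))).trans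
      (Set.ncard_union_le _ _)
    omega
  refine ⟨fun x => decide (x ∈ T), fun x y hxy => ?_⟩
  by_cases hx : x ∈ T
  · have key : ReflTransGen (fun a b => b ∈ T ∧ b ∈ B a r) x y ∧ y ∈ T := by
      induction hxy with
      | refl => exact ⟨ReflTransGen.refl, hx⟩
      | @tail b c _ hbc ih =>
        have hc : c ∈ T := by
          have h1 : decide (b ∈ T) = decide (c ∈ T) := hbc.2.2.1
          have h2 : decide (b ∈ T) = true := decide_eq_true ih.2
          rw [h2] at h1
          exact of_decide_eq_true h1.symm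
        exact ⟨ih.1.tail ⟨hc, hbc.2.2.2⟩, hc⟩
    exact hB.mono x _ _ hmR (reach_bounded hB hκ hTf hx (hfew x hx) key.1)
  · by_cases hxF : x ∈ F
    · obtain ⟨z, hz⟩ := hT.2 x ⟨hxF, hx⟩
      have key : ReflTransGen (fun a b => b ∈ (F : Set V) \ T ∧ b ∈ B a r) x y ∧ y ∉ T := by
        induction hxy with
        | refl => exact ⟨ReflTransGen.refl, hx⟩
        | @tail b c _ hbc ih =>
          have hc : c ∉ T := by
            have h1 : decide (b ∈ T) = decide (c ∈ T) := hbc.2.2.1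
            have h2 : decide (b ∈ T) = false := decide_eq_false ih.2
            rw [h2] at h1
            exact of_decide_eq_false h1.symm
          exact ⟨ih.1.tail ⟨⟨hbc.2.1, hc⟩, hbc.2.2.2⟩, hc⟩
      have h1 := hB.symm _ _ _ (hz x ReflTransGen.refl)
      have h2 := hB.trans _ _ _ _ _ h1 (hz y key.1)
      rwa [two_mul]
    · have h1 : y = x := by
        induction hxy with
        | refl => rfl
        | @tail b c _ hbc ih =>
          rw [ih] at hbc
          exact absurd hbc.1 hxF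
      rw [h1]
      exact hB.self _ _

/-- The colouring of `V`, by compactness. -/
theorem exists_color {B : V → ℕ → Set V} (hB : IsBalls B) (hBf : ∀ x r, (B x r).Finite)
    {r R m κ : ℕ} (hκ : κ * r ≤ m) (hmR : m ≤ 2 * R)
    (H : ∀ y, ∃ U : Set V, U ⊆ B y R ∧ (B y m \ U).ncard + (outer B r U).ncard ≤ κ) :
    ∃ c : V → Bool, ∀ x y,
      ReflTransGen (fun a b => c a = c b ∧ b ∈ B a r) x y → y ∈ B x (2 * R) := by
  classical
  choose c hc using exists_color_finset hB hBf hκ hmR H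
  set 𝒰 : Ultrafilter (Finset V) := Ultrafilter.of atTop with h𝒰
  have hle : (𝒰 : Filter (Finset V)) ≤ atTop := Ultrafilter.of_le _
  have hlim : ∀ x, ∃ b : Bool, ∀ᶠ F in (𝒰 : Filter (Finset V)), c F x = b := by
    intro x
    rcases 𝒰.em (fun F => c F x = true) with h | h
    · exact ⟨true, h⟩
    · exact ⟨false, h.mono fun F hF => by simpa using hF⟩
  choose c₀ hc₀ using hlim
  have hmem : ∀ x, ∀ᶠ F in (𝒰 : Filter (Finset V)), x ∈ F := by
    intro x
    refine hle (mem_atTop_sets.2 ⟨{x}, fun F hF => ?_⟩)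
    exact hF (Finset.mem_singleton_self x)
  refine ⟨c₀, fun x y hxy => ?_⟩
  have key : ∀ᶠ F in (𝒰 : Filter (Finset V)),
      ReflTransGen (fun a b => a ∈ F ∧ b ∈ F ∧ c F a = c F b ∧ b ∈ B a r) x y := by
    induction hxy with
    | refl => exact Eventually.of_forall fun F => ReflTransGen.refl
    | @tail b d _ hbd ih =>
      filter_upwards [ih, hmem b, hmem d, hc₀ b, hc₀ d] with F h1 h2 h3 h4 h5
      exact h1.tail ⟨h2, h3, by rw [h4, h5, hbd.1], hbd.2⟩
  obtain ⟨F, hF⟩ := key.exists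
  exact hc F x y hF

/-- The thin cover. -/
theorem exists_cover {B : V → ℕ → Set V} (hB : IsBalls B) {r r' D b : ℕ} (hr : 2 * r ≤ r')
    (hBf : ∀ x r, (B x r).Finite) (hb : ∀ x, (B x (D + r)).ncard ≤ b) {c : V → Bool}
    (hc : ∀ x y, ReflTransGen (fun a b => c a = c b ∧ b ∈ B a r') x y → y ∈ B x D) :
    ∃ 𝒲 : Set (Set V), (∀ W ∈ 𝒲, W.Finite ∧ W.ncard ≤ b) ∧
      (∀ x, {W | W ∈ 𝒲 ∧ x ∈ W}.encard ≤ 2) ∧ ∀ x, ∃ W ∈ 𝒲, B x r ⊆ W := by
  classical
  have hrev : ∀ x y, ReflTransGen (fun a b => c a = c b ∧ b ∈ B a r') x y →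
      ReflTransGen (fun a b => c a = c b ∧ b ∈ B a r') y x := by
    intro x y h
    induction h with
    | refl => exact ReflTransGen.refl
    | @tail b d _ hbd ih => exact ReflTransGen.head ⟨hbd.1.symm, hB.symm _ _ _ hbd.2⟩ ih
  obtain ⟨W, hW⟩ : ∃ W : V → Set V, ∀ x, W x =
      {w | ∃ y, ReflTransGen (fun a b => c a = c b ∧ b ∈ B a r') x y ∧ w ∈ B y r} := ⟨_, fun _ => rfl⟩
  have hWsub : ∀ x, W x ⊆ B x (D + r) := by
    intro x w hw
    rw [hW] at hw
    obtain ⟨y, h1, h2⟩ := hw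
    exact hB.trans _ _ _ _ _ (hc x y h1) h2
  have hcol : ∀ x y, ReflTransGen (fun a b => c a = c b ∧ b ∈ B a r') x y → c x = c y := by
    intro x y h
    induction h with
    | refl => rfl
    | @tail b d _ hbd ih => exact ih.trans hbd.1
  have heq : ∀ x x' p, p ∈ W x → p ∈ W x' → c x = c x' → W x = W x' := by
    intro x x' p hp hp' hxx
    rw [hW] at hp hp'
    obtain ⟨y, h1, h2⟩ := hp
    obtain ⟨y', h3, h4⟩ := hp'
    have h5 : c y = c y' := by rw [← hcol _ _ h1, ← hcol _ _ h3, hxx]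
    have h6 : y' ∈ B y r' := hB.mono y _ _ hr (by
      rw [two_mul]
      exact hB.trans _ _ _ _ _ h2 (hB.symm _ _ _ h4))
    have h7 : ReflTransGen (fun a b => c a = c b ∧ b ∈ B a r') x x' :=
      (h1.tail ⟨h5, h6⟩).trans (hrev _ _ h3)
    have h8 := hrev _ _ h7
    rw [hW, hW]
    ext w
    constructor
    · rintro ⟨u, hu, hw⟩
      exact ⟨u, h8.trans hu, hw⟩
    · rintro ⟨u, hu, hw⟩
      exact ⟨u, h7.trans hu, hw⟩
  refine ⟨Set.range W, ?_, ?_, ?_⟩
  · rintro _ ⟨x, rfl⟩
    exact ⟨(hBf x _).subset (hWsub x), (Set.ncard_le_ncard (hWsub x) (hBf x _)).trans (hb x)⟩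
  · intro p
    have hch : ∀ Y : Set V, ∃ x, Y ∈ Set.range W → W x = Y := by
      intro Y
      by_cases h : Y ∈ Set.range W
      · obtain ⟨x, hx⟩ := h
        exact ⟨x, fun _ => hx⟩
      · exact ⟨p, fun h' => absurd h' h⟩
    choose g hg using hch
    have hinj : InjOn (fun Y => c (g Y)) {Y | Y ∈ Set.range W ∧ p ∈ Y} := by
      rintro Y ⟨h1, h2⟩ Y' ⟨h3, h4⟩ h5
      rw [← hg Y h1] at h2 ⊢
      rw [← hg Y' h3] at h4 ⊢
      exact heq _ _ p h2 h4 h5
    have h1 : {Y | Y ∈ Set.range W ∧ p ∈ Y}.encard ≤ (Set.univ : Set Bool).encard := by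
      rw [← hinj.encard_image]
      exact Set.encard_le_encard (Set.subset_univ _)
    refine h1.trans (le_of_eq ?_)
    rw [Set.encard_univ, ENat.card_eq_coe_fintype_card]
    rfl
  · intro x
    refine ⟨W x, ⟨x, rfl⟩, fun w hw => ?_⟩
    rw [hW]
    exact ⟨x, ReflTransGen.refl, hw⟩

end Pool.Agent.Lib.H10G
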