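import Pool.Agent.Lib.H10G.Color
import Pool.Agent.Lib.H65D.Main

/-!
# H10G: small cuts between concentric balls give thin covers
-/

set_option autoImplicit false

namespace Pool.Agent.Lib.H10G

open Set Relation
open Pool.Agent.Lib.Helper67.BN (ball orbitBall ball_mono one_mem_ball ball_mul ball_inv
  orbitBall_mono mem_orbitBall_self orbitBall_finite mem_orbitBall_succ ball_finite)
open Pool.Agent.Lib.H65D (ThinCover)

universe u v

variable {E : Type u} [Group E] {V : Type v}

theorem isBalls (π : E →* Equiv.Perm V) (S : Set E) : IsBalls (orbitBall π S) := by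
  refine ⟨fun x r => mem_orbitBall_self π S x r, fun x r s h => orbitBall_mono h, ?_, ?_⟩
  · rintro x y r ⟨g, hg, rfl⟩
    refine ⟨g⁻¹, ball_inv hg, ?_⟩
    rw [map_inv]
    exact (π g).symm_apply_apply x
  · rintro x y z r s ⟨g, hg, rfl⟩ ⟨h, hh, rfl⟩
    refine ⟨h * g, ?_, by rw [map_mul]; rfl⟩
    rw [add_comm]
    exact ball_mul hh hg

/-- The set `A` separates the ball of radius `m` around `y` from the complement of the ball of
radius `R`: there is a set `U` (the inner side) in the ball of radius `R` such that `U` and `A`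
contain the ball of radius `m` and the neighbours of the points of `U`. -/
def Separates (π : E →* Equiv.Perm V) (S : Set E) (y : V) (m R : ℕ) (A : Set V) : Prop :=
  ∃ U : Set V, U ⊆ orbitBall π S y R ∧ orbitBall π S y m ⊆ U ∪ A ∧
    ∀ u ∈ U, orbitBall π S u 1 ⊆ U ∪ A

theorem outer_sub {π : E →* Equiv.Perm V} {S : Set E} {U A : Set V}
    (h : ∀ u ∈ U, orbitBall π S u 1 ⊆ U ∪ A) (r : ℕ) :
    outer (orbitBall π S) r (U \ A) ⊆ (fun p : V × E => π p.2 p.1) '' (A ×ˢ ball S r) := by
  rintro z ⟨hz, u, hu, hzu⟩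
  induction r generalizing z with
  | zero =>
    obtain ⟨g, hg, rfl⟩ := hzu
    rw [Pool.Agent.Lib.Helper67.BN.ball_zero] at hg
    obtain rfl : g = 1 := hg
    rw [map_one] at hz
    exact absurd hu hz
  | succ r ih =>
    rcases mem_orbitBall_succ.1 hzu with h1 | ⟨s, hs, w, hw, rfl⟩
    · obtain ⟨⟨a, g⟩, ⟨ha, hg⟩, rfl⟩ := ih hz h1
      exact ⟨(a, g), ⟨ha, ball_mono (Nat.le_succ r) hg⟩, rfl⟩
    · by_cases hwU : w ∈ U \ A
      · have h1 : π s w ∈ U ∪ A := by
          apply h w hwU.1
          refine ⟨s, ⟨[s], by simp, by simpa using hs, by simp⟩, rfl⟩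
        have h2 : π s w ∈ A := by
          rcases h1 with h1 | h1
          · by_contra h3
            exact hz ⟨h1, h3⟩
          · exact h1
        exact ⟨(π s w, 1), ⟨h2, one_mem_ball S _⟩, by simp⟩
      · obtain ⟨⟨a, g⟩, ⟨ha, hg⟩, h1⟩ := ih hwU hw
        refine ⟨(a, s * g), ⟨ha, ?_⟩, ?_⟩
        · have h2 : s ∈ ball S 1 := ⟨[s], by simp, by simpa using hs, by simp⟩
          have h3 := ball_mul h2 hg
          rwa [add_comm] at h3
        · show π (s * g) a = π s w
          rw [← h1, map_mul]
          rfl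

/-- The constant. -/
noncomputable def cutConst (S : Set E) (r : ℕ) : ℕ := ((ball S (2 * r + 1)).ncard + 1) * (2 * r + 1)

theorem cutConst_pos (S : Set E) (r : ℕ) : 0 < cutConst S r := by
  unfold cutConst
  positivity

/-- If all balls are cut off by few points, there is a thin cover. -/
theorem thinCover_of_cuts {π : E →* Equiv.Perm V} {S : Set E} (hS : S.Finite) (r : ℕ) {m R : ℕ}
    (hmR : m ≤ R)
    (h : ∀ y, ∃ A : Set V, A.Finite ∧ Separates π S y m R A ∧ cutConst S r * A.ncard ≤ m) :
    ThinCover π S r (ball S (2 * R + r)).ncard := by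
  have hB := isBalls π S
  have hBf : ∀ x n, (orbitBall π S x n).Finite := fun x n => orbitBall_finite hS x n
  have hH : ∀ y, ∃ U : Set V, U ⊆ orbitBall π S y R ∧
      (orbitBall π S y m \ U).ncard + (outer (orbitBall π S) (2 * r + 1) U).ncard ≤
        m / (2 * r + 1) := by
    intro y
    obtain ⟨A, hA, ⟨U, h1, h2, h3⟩, h4⟩ := h y
    refine ⟨U \ A, fun z hz => h1 hz.1, ?_⟩
    have h5 : (orbitBall π S y m \ (U \ A)).ncard ≤ A.ncard := by
      refine Set.ncard_le_ncard ?_ hA
      rintro z ⟨hz1, hz2⟩
      by_contra hz3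
      rcases h2 hz1 with h6 | h6
      · exact hz2 ⟨h6, hz3⟩
      · exact hz3 h6
    have hfin : (A ×ˢ ball S (2 * r + 1)).Finite := hA.prod (ball_finite hS _)
    have h6 : (outer (orbitBall π S) (2 * r + 1) (U \ A)).ncard ≤
        A.ncard * (ball S (2 * r + 1)).ncard := by
      refine (Set.ncard_le_ncard (outer_sub h3 _) (hfin.image _)).trans ?_
      refine (Set.ncard_image_le hfin).trans (le_of_eq ?_)
      exact Set.ncard_prod
    rw [Nat.le_div_iff_mul_le (by omega)]
    refine le_trans (Nat.mul_le_mul_right _ (Nat.add_le_add h5 h6)) (le_trans (le_of_eq ?_) h4)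
    unfold cutConst
    ring
  obtain ⟨c, hc⟩ := exists_color (r := 2 * r + 1) (R := R) (m := m) (κ := m / (2 * r + 1))
    hB hBf (Nat.div_mul_le_self _ _) (by omega) hH
  refine exists_cover (r' := 2 * r + 1) (D := 2 * R) hB (by omega) hBf (fun x => ?_) hc
  have h6 : orbitBall π S x (2 * R + r) = (fun g => π g x) '' ball S (2 * R + r) := by
    ext y
    constructor
    · rintro ⟨g, h1, h2⟩
      exact ⟨g, h1, h2⟩
    · rintro ⟨g, h1, h2⟩
      exact ⟨g, h1, h2⟩
  rw [h6]
  exact Set.ncard_image_le (ball_finite hS _)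

theorem Separates.mono {π : E →* Equiv.Perm V} {S : Set E} {y : V} {m R R' : ℕ} {A : Set V}
    (h : Separates π S y m R A) (hR : R ≤ R') : Separates π S y m R' A := by
  obtain ⟨U, h1, h2, h3⟩ := h
  exact ⟨U, h1.trans (orbitBall_mono hR), h2, h3⟩

/-- The point `y` is thick: the ball of radius `m` is not cut off inside the ball of radius `R` by
at most `m / C` points, and the ball of radius `2 m` has more than `m ^ 2 / C` points. -/
def Thick (π : E →* Equiv.Perm V) (S : Set E) (C m R : ℕ) (y : V) : Prop :=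
  (∀ A : Set V, A.Finite → Separates π S y m R A → m < C * A.ncard) ∧
    (2 * m ≤ R → m ^ 2 < C * (orbitBall π S y (2 * m)).ncard)

theorem Thick.mono {π : E →* Equiv.Perm V} {S : Set E} {y : V} {C m R R' : ℕ}
    (h : Thick π S C m R' y) (hR : R ≤ R') : Thick π S C m R y :=
  ⟨fun A hA h1 => h.1 A hA (h1.mono hR), fun h1 => h.2 (h1.trans hR)⟩

/-- Large cuts give large balls. -/
theorem growth_of_cuts {π : E →* Equiv.Perm V} {S : Set E} (hS : S.Finite) {C m : ℕ} (hC : 0 < C)
    {y : V} (h : ∀ A : Set V, A.Finite → Separates π S y m (2 * m) A → m < C * A.ncard) :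
    m ^ 2 < C * (orbitBall π S y (2 * m)).ncard := by
  have key : ∀ j, j ≤ m → C + j * (m + 1) ≤ C * (orbitBall π S y (m + j)).ncard := by
    intro j
    induction j with
    | zero =>
      intro _
      have h1 : 0 < (orbitBall π S y (m + 0)).ncard := by
        rw [Set.ncard_pos (orbitBall_finite hS _ _)]
        exact ⟨y, mem_orbitBall_self π S y _⟩
      rw [zero_mul, add_zero]
      exact Nat.le_mul_of_pos_right C h1
    | succ j ih =>
      intro hj
      have h1 := ih (by omega)
      obtain ⟨A, hA⟩ : ∃ A, A = orbitBall π S y (m + (j + 1)) \ orbitBall π S y (m + j) := ⟨_, rfl⟩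
      have hAf : A.Finite := by
        rw [hA]
        exact (orbitBall_finite hS _ _).sdiff
      have hsub : orbitBall π S y (m + j) ⊆ orbitBall π S y (m + (j + 1)) :=
        orbitBall_mono (by omega)
      have hun : orbitBall π S y (m + j) ∪ A = orbitBall π S y (m + (j + 1)) := by
        rw [hA, Set.union_sdiff_cancel hsub]
      have h2 : m < C * A.ncard := by
        refine h A hAf ⟨orbitBall π S y (m + j), orbitBall_mono (by omega), ?_, ?_⟩
        · rw [hun]
          exact orbitBall_mono (by omega)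
        · intro u hu
          rw [hun]
          intro z hz
          have h9 := (isBalls π S).trans y u z (m + j) 1 hu hz
          rwa [add_assoc] at h9
      have h3 : (orbitBall π S y (m + j)).ncard + A.ncard =
          (orbitBall π S y (m + (j + 1))).ncard := by
        rw [← hun, Set.ncard_union_eq ?_ (orbitBall_finite hS _ _) hAf]
        rw [hA]
        exact disjoint_sdiff_self_right
      rw [← h3]
      have h5 : C * ((orbitBall π S y (m + j)).ncard + A.ncard) =
          C * (orbitBall π S y (m + j)).ncard + C * A.ncard := mul_add _ _ _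
      have h4 : (j + 1) * (m + 1) = j * (m + 1) + (m + 1) := by ring
      rw [h4, h5]
      omega
  have h1 := key m le_rfl
  rw [← two_mul] at h1
  have h2 : m * (m + 1) = m ^ 2 + m := by ring
  rw [h2] at h1
  omega

/-- A point which is not thick has a small cut. -/
theorem exists_cut_of_not_thick {π : E →* Equiv.Perm V} {S : Set E} (hS : S.Finite) {C m R : ℕ}
    (hC : 0 < C) {y : V} (h : ¬ Thick π S C m R y) :
    ∃ A : Set V, A.Finite ∧ Separates π S y m R A ∧ C * A.ncard ≤ m := by
  by_contra hcon
  push Not at hcon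
  refine h ⟨hcon, fun hR => growth_of_cuts hS hC fun A hA h1 => hcon A hA (h1.mono hR)⟩

end Pool.Agent.Lib.H10G
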