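import Pool.Agent.Lib.H10G.Cut

/-!
# H10G: limits of Schreier graphs
-/

set_option autoImplicit false

namespace Pool.Agent.Lib.H10G

open Set Filter
open Pool.Agent.Lib.Helper67.BN (ball orbitBall ball_mono one_mem_ball ball_mul ball_inv
  orbitBall_mono mem_orbitBall_self orbitBall_finite mem_orbitBall_succ ball_finite finite_T)

universe u v

variable {E : Type u} [Group E] {V : ℕ → Type v}

/-- The stabilizer of the base point of the limit. -/
def limStab (π : ∀ n, E →* Equiv.Perm (V n)) (x : ∀ n, V n) (𝒰 : Ultrafilter ℕ) : Subgroup E where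
  carrier := {g | ∀ᶠ n in (𝒰 : Filter ℕ), π n g (x n) = x n}
  one_mem' := Eventually.of_forall fun n => by simp
  mul_mem' := by
    intro a b ha hb
    filter_upwards [ha, hb] with n h1 h2
    rw [map_mul, Equiv.Perm.mul_apply, h2, h1]
  inv_mem' := by
    intro a ha
    filter_upwards [ha] with n h1
    rw [map_inv]
    exact (Equiv.Perm.inv_eq_iff_eq).2 h1.symm

variable {π : ∀ n, E →* Equiv.Perm (V n)} {x : ∀ n, V n} {𝒰 : Ultrafilter ℕ}

theorem mk_eq_iff {g h : E} : (g : E ⧸ limStab π x 𝒰) = (h : E ⧸ limStab π x 𝒰) ↔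
    ∀ᶠ n in (𝒰 : Filter ℕ), π n g (x n) = π n h (x n) := by
  rw [QuotientGroup.eq]
  show (∀ᶠ n in (𝒰 : Filter ℕ), π n (g⁻¹ * h) (x n) = x n) ↔ _
  refine eventually_congr (Eventually.of_forall fun n => ?_)
  rw [map_mul, map_inv, Equiv.Perm.mul_apply, Equiv.Perm.inv_eq_iff_eq]
  exact eq_comm

/-- The limit action. -/
abbrev limAct (π : ∀ n, E →* Equiv.Perm (V n)) (x : ∀ n, V n) (𝒰 : Ultrafilter ℕ) :
    E →* Equiv.Perm (E ⧸ limStab π x 𝒰) := MulAction.toPermHom E (E ⧸ limStab π x 𝒰)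

theorem limAct_mk (g h : E) :
    limAct π x 𝒰 g (h : E ⧸ limStab π x 𝒰) = ((g * h : E) : E ⧸ limStab π x 𝒰) := rfl

theorem limit_cut {S : Set E} (hS : S.Finite) {m R K : ℕ} (g : E)
    (h : ∀ᶠ n in (𝒰 : Filter ℕ), ∃ A : Set (V n), A.Finite ∧
      Separates (π n) S (π n g (x n)) m R A ∧ A.ncard ≤ K) :
    ∃ A : Set (E ⧸ limStab π x 𝒰), A.Finite ∧
      Separates (limAct π x 𝒰) S (g : E ⧸ limStab π x 𝒰) m R A ∧ A.ncard ≤ K := by
  have h0 : ∀ n, ∃ A U : Set (V n), (∃ A : Set (V n), A.Finite ∧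
      Separates (π n) S (π n g (x n)) m R A ∧ A.ncard ≤ K) → A.Finite ∧ A.ncard ≤ K ∧
      U ⊆ orbitBall (π n) S (π n g (x n)) R ∧ orbitBall (π n) S (π n g (x n)) m ⊆ U ∪ A ∧
      ∀ u ∈ U, orbitBall (π n) S u 1 ⊆ U ∪ A := by
    intro n
    by_cases h1 : ∃ A : Set (V n), A.Finite ∧ Separates (π n) S (π n g (x n)) m R A ∧ A.ncard ≤ K
    · obtain ⟨A, h2, ⟨U, h3, h4, h5⟩, h6⟩ := h1
      exact ⟨A, U, fun _ => ⟨h2, h6, h3, h4, h5⟩⟩
    · exact ⟨∅, ∅, fun h2 => absurd h2 h1⟩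
  choose A U hAU using h0
  have hev := h.mono fun n hn => hAU n hn
  obtain ⟨A', hA'⟩ : ∃ A' : Set (E ⧸ limStab π x 𝒰), ∀ k : E, (k : E ⧸ limStab π x 𝒰) ∈ A' ↔
      ∀ᶠ n in (𝒰 : Filter ℕ), π n k (x n) ∈ A n := by
    refine ⟨{z | ∃ k : E, z = (k : E ⧸ limStab π x 𝒰) ∧
      ∀ᶠ n in (𝒰 : Filter ℕ), π n k (x n) ∈ A n}, fun k => ⟨?_, fun hk => ⟨k, rfl, hk⟩⟩⟩
    rintro ⟨l, h1, h2⟩
    filter_upwards [mk_eq_iff.1 h1, h2] with n h3 h4
    rwa [h3]
  obtain ⟨U', hU'⟩ : ∃ U' : Set (E ⧸ limStab π x 𝒰), ∀ k : E, (k : E ⧸ limStab π x 𝒰) ∈ U' ↔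
      ∀ᶠ n in (𝒰 : Filter ℕ), π n k (x n) ∈ U n := by
    refine ⟨{z | ∃ k : E, z = (k : E ⧸ limStab π x 𝒰) ∧
      ∀ᶠ n in (𝒰 : Filter ℕ), π n k (x n) ∈ U n}, fun k => ⟨?_, fun hk => ⟨k, rfl, hk⟩⟩⟩
    rintro ⟨l, h1, h2⟩
    filter_upwards [mk_eq_iff.1 h1, h2] with n h3 h4
    rwa [h3]
  have hun : ∀ k : E, (∀ᶠ n in (𝒰 : Filter ℕ), π n k (x n) ∈ U n ∪ A n) →
      (k : E ⧸ limStab π x 𝒰) ∈ U' ∪ A' := by
    intro k hk
    rcases Ultrafilter.eventually_or.1 hk with h1 | h1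
    · exact Or.inl ((hU' k).2 h1)
    · exact Or.inr ((hA' k).2 h1)
  have hcard : A'.encard ≤ K := by
    by_contra hcon
    push Not at hcon
    obtain ⟨F, hF1, hF2⟩ := Set.exists_subset_encard_eq (Order.add_one_le_of_lt hcon)
    have hFf : F.Finite := Set.finite_of_encard_eq_coe (k := K + 1) (by rw [hF2]; rfl)
    have h1 : ∀ z : E ⧸ limStab π x 𝒰, ∃ k : E, (k : E ⧸ limStab π x 𝒰) = z :=
      fun z => Quotient.exists_rep z
    choose rep hrep using h1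
    have h2 : ∀ᶠ n in (𝒰 : Filter ℕ), ∀ z ∈ F, π n (rep z) (x n) ∈ A n := by
      rw [hFf.eventually_all]
      intro z hz
      rw [← hA', hrep]
      exact hF1 hz
    have h3 : ∀ᶠ n in (𝒰 : Filter ℕ), ∀ z ∈ F, ∀ w ∈ F,
        π n (rep z) (x n) = π n (rep w) (x n) → z = w := by
      rw [hFf.eventually_all]
      intro z hz
      rw [hFf.eventually_all]
      intro w hw
      by_cases hzw : z = w
      · exact Eventually.of_forall fun n _ => hzw
      · have h4 : ¬ ∀ᶠ n in (𝒰 : Filter ℕ), π n (rep z) (x n) = π n (rep w) (x n) := by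
          rw [← mk_eq_iff, hrep, hrep]
          exact hzw
        rw [← Ultrafilter.eventually_not] at h4
        exact h4.mono fun n h5 h6 => absurd h6 h5
    obtain ⟨n, ⟨h4, h5⟩, h6⟩ := ((h2.and h3).and hev).exists
    have h7 : F.encard ≤ (A n).encard := by
      rw [← (show InjOn (fun z => π n (rep z) (x n)) F from fun z hz w hw => h5 z hz w hw).encard_image]
      refine Set.encard_le_encard ?_
      rintro _ ⟨z, hz, rfl⟩
      exact h4 z hz
    rw [hF2, ← h6.1.cast_ncard_eq] at h7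
    have h8 : ((K : ℕ∞) + 1) ≤ K := h7.trans (by exact_mod_cast h6.2.1)
    exact absurd h8 (not_le.2 (by exact_mod_cast Nat.lt_succ_self K))
  have hAf : A'.Finite := Set.finite_of_encard_le_coe hcard
  refine ⟨A', hAf, ⟨U', ?_, ?_, ?_⟩, ?_⟩
  · intro z hz
    obtain ⟨k, rfl⟩ : ∃ k : E, (k : E ⧸ limStab π x 𝒰) = z := Quotient.exists_rep z
    have h1 : ∀ᶠ n in (𝒰 : Filter ℕ), ∃ q ∈ ball S R, π n (q * g) (x n) = π n k (x n) := by
      filter_upwards [(hU' k).1 hz, hev] with n h2 h3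
      obtain ⟨q, hq, h4⟩ := h3.2.2.1 h2
      exact ⟨q, hq, by rw [map_mul]; exact h4⟩
    obtain ⟨q, hq, h2⟩ : ∃ q ∈ ball S R, ∀ᶠ n in (𝒰 : Filter ℕ),
        π n (q * g) (x n) = π n k (x n) := by
      by_contra hcon
      push Not at hcon
      have h3 : ∀ᶠ n in (𝒰 : Filter ℕ), ∀ q ∈ ball S R, ¬ π n (q * g) (x n) = π n k (x n) := by
        rw [(ball_finite hS R).eventually_all]
        intro q hq
        exact hcon q hq
      obtain ⟨n, ⟨q, hq, h4⟩, h5⟩ := (h1.and h3).exists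
      exact h5 q hq h4
    exact ⟨q, hq, by rw [limAct_mk]; exact mk_eq_iff.2 h2⟩
  · rintro _ ⟨p, hp, rfl⟩
    rw [limAct_mk]
    apply hun
    filter_upwards [hev] with n h1
    exact h1.2.2.2.1 ⟨p, hp, by rw [map_mul]; rfl⟩
  · intro u hu
    obtain ⟨k, rfl⟩ : ∃ k : E, (k : E ⧸ limStab π x 𝒰) = u := Quotient.exists_rep u
    rintro _ ⟨p, hp, rfl⟩
    rw [limAct_mk]
    apply hun
    filter_upwards [hev, (hU' k).1 hu] with n h1 h2
    exact h1.2.2.2.2 _ h2 ⟨p, hp, by rw [map_mul]; rfl⟩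
  · have h1 := hAf.cast_ncard_eq
    rw [← h1] at hcard
    exact_mod_cast hcard

/-- Bounded orbits in the limit come from bounded orbits. -/
theorem limit_bounded {S : Set E} (hS : S.Finite) (hgen : Subgroup.closure S = ⊤) {N : ℕ}
    (h : (Set.range fun g => limAct π x 𝒰 g ((1 : E) : E ⧸ limStab π x 𝒰)).Finite ∧
      (Set.range fun g => limAct π x 𝒰 g ((1 : E) : E ⧸ limStab π x 𝒰)).ncard ≤ N) :
    ∀ᶠ n in (𝒰 : Filter ℕ), (Set.range fun g => π n g (x n)).Finite ∧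
      (Set.range fun g => π n g (x n)).ncard ≤ N := by
  have huniv : (Set.range fun g => limAct π x 𝒰 g ((1 : E) : E ⧸ limStab π x 𝒰)) = univ := by
    rw [Set.eq_univ_iff_forall]
    intro z
    obtain ⟨k, rfl⟩ : ∃ k : E, (k : E ⧸ limStab π x 𝒰) = z := Quotient.exists_rep z
    exact ⟨k, by show limAct π x 𝒰 k _ = _; rw [limAct_mk, mul_one]⟩
  rw [huniv] at h
  have hfin : Finite (E ⧸ limStab π x 𝒰) := Set.finite_univ_iff.1 h.1
  have h1 : ∀ z : E ⧸ limStab π x 𝒰, ∃ k : E, (k : E ⧸ limStab π x 𝒰) = z :=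
    fun z => Quotient.exists_rep z
  choose rep hrep using h1
  have h2 : ∀ᶠ n in (𝒰 : Filter ℕ), ∀ s ∈ {s : E | s ∈ S ∨ s⁻¹ ∈ S}, ∀ z,
      π n (s * rep z) (x n) = π n (rep (limAct π x 𝒰 s z)) (x n) := by
    rw [(finite_T hS).eventually_all]
    intro s hs
    rw [eventually_all]
    intro z
    rw [← mk_eq_iff, hrep, ← limAct_mk, hrep]
  have h3 : ∀ᶠ n in (𝒰 : Filter ℕ), π n (rep ((1 : E) : E ⧸ limStab π x 𝒰)) (x n) =
      π n 1 (x n) := by
    rw [← mk_eq_iff, hrep]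
  filter_upwards [h2, h3] with n h4 h5
  have h6 : (Set.range fun g => π n g (x n)) ⊆
      Set.range fun z : E ⧸ limStab π x 𝒰 => π n (rep z) (x n) := by
    rintro _ ⟨g, rfl⟩
    have hg : g ∈ Subgroup.closure S := by rw [hgen]; trivial
    induction hg using Subgroup.closure_induction_left with
    | one => exact ⟨_, h5⟩
    | mul_left s hs k _ ih =>
      obtain ⟨z, hz⟩ := ih
      have hz' : π n (rep z) (x n) = π n k (x n) := hz
      refine ⟨limAct π x 𝒰 s z, ?_⟩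
      show π n (rep (limAct π x 𝒰 s z)) (x n) = π n (s * k) (x n)
      rw [← h4 s (Or.inl hs) z, map_mul, map_mul, Equiv.Perm.mul_apply, Equiv.Perm.mul_apply, hz']
    | inv_mul_cancel s hs k _ ih =>
      obtain ⟨z, hz⟩ := ih
      have hz' : π n (rep z) (x n) = π n k (x n) := hz
      refine ⟨limAct π x 𝒰 s⁻¹ z, ?_⟩
      show π n (rep (limAct π x 𝒰 s⁻¹ z)) (x n) = π n (s⁻¹ * k) (x n)
      rw [← h4 s⁻¹ (Or.inr (by rwa [inv_inv])) z, map_mul, map_mul, Equiv.Perm.mul_apply,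
        Equiv.Perm.mul_apply, hz']
  refine ⟨(Set.finite_range _).subset h6, (Set.ncard_le_ncard h6 (Set.finite_range _)).trans ?_⟩
  refine le_trans ?_ h.2
  rw [← Set.image_univ]
  exact Set.ncard_image_le h.1

/-- In the limit all points have small cuts. -/
theorem limit_thin {S : Set E} (hS : S.Finite) (hgen : Subgroup.closure S = ⊤) {C m R : ℕ}
    (hC : 0 < C) (h𝒰 : (𝒰 : Filter ℕ) ≤ atTop)
    (h : ∀ n, ∀ y ∈ orbitBall (π n) S (x n) n, ¬ Thick (π n) S C m R y) (z : E ⧸ limStab π x 𝒰) :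
    ∃ A : Set (E ⧸ limStab π x 𝒰), A.Finite ∧ Separates (limAct π x 𝒰) S z m R A ∧
      C * A.ncard ≤ m := by
  obtain ⟨k, rfl⟩ : ∃ k : E, (k : E ⧸ limStab π x 𝒰) = z := Quotient.exists_rep z
  obtain ⟨ℓ, hℓ⟩ := Pool.Agent.Lib.H65D.exists_mem_ball hgen k
  have h1 : ∀ᶠ n in (𝒰 : Filter ℕ), ∃ A : Set (V n), A.Finite ∧
      Separates (π n) S (π n k (x n)) m R A ∧ A.ncard ≤ m / C := by
    filter_upwards [h𝒰 (eventually_ge_atTop ℓ)] with n hn
    obtain ⟨A, h2, h3, h4⟩ := exists_cut_of_not_thick hS hC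
      (h n (π n k (x n)) ⟨k, ball_mono hn hℓ, rfl⟩)
    exact ⟨A, h2, h3, (Nat.le_div_iff_mul_le hC).2 (by rwa [mul_comm])⟩
  obtain ⟨A, h2, h3, h4⟩ := limit_cut hS k h1
  exact ⟨A, h2, h3, by rw [mul_comm]; exact (Nat.le_div_iff_mul_le hC).1 h4⟩

end Pool.Agent.Lib.H10G
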